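import Mathlib

set_option autoImplicit false

namespace Pool.Agent.Results.MP_ced6ff_co.Double

open Matrix Finset

/-- a sign -/
def Sg (a : ℤ) : Prop := a = 1 ∨ a = -1

/-- Hadamard matrices of order `n` -/
def Had (n : ℕ) : Type :=
  {H : Matrix (Fin n) (Fin n) ℤ // (∀ i j, Sg (H i j)) ∧ H * Hᵀ = (n : ℤ) • (1 : Matrix _ _ ℤ)}

/-- `B` arises from `A` by permuting and negating rows and columns -/
def E {ι : Type} (A B : ι → ι → ℤ) : Prop :=
  ∃ (p q : Equiv.Perm ι) (u v : ι → ℤ), (∀ i, Sg (u i)) ∧ (∀ j, Sg (v j)) ∧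
    ∀ i j, B i j = u i * v j * A (p i) (q j)

/-- the number of equivalence classes -/
noncomputable def h (n : ℕ) : ℕ := Nat.card (Quot fun H K : Had n => E H.1 K.1)

variable {ι : Type}

theorem Sg.sq {a : ℤ} (h : Sg a) : a * a = 1 := by rcases h with rfl | rfl <;> rfl
theorem Sg.mul {a b : ℤ} (h : Sg a) (k : Sg b) : Sg (a * b) := by
  rcases h with rfl | rfl <;> rcases k with rfl | rfl <;> simp [Sg]

theorem E.refl (A : ι → ι → ℤ) : E A A :=
  ⟨1, 1, fun _ => 1, fun _ => 1, fun _ => Or.inl rfl, fun _ => Or.inl rfl, by simp⟩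

theorem E.symm {A B : ι → ι → ℤ} (h : E A B) : E B A := by
  obtain ⟨p, q, u, v, hu, hv, h⟩ := h
  refine ⟨p.symm, q.symm, fun i => u (p.symm i), fun j => v (q.symm j), fun _ => hu _,
    fun _ => hv _, fun i j => ?_⟩
  rw [h]
  simp only [Equiv.apply_symm_apply]
  linear_combination (-(A i j) * v (q.symm j) * v (q.symm j)) * (hu (p.symm i)).sq -
    A i j * (hv (q.symm j)).sq

theorem E.trans {A B C : ι → ι → ℤ} (h : E A B) (k : E B C) : E A C := by
  obtain ⟨p, q, u, v, hu, hv, h⟩ := h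
  obtain ⟨p', q', u', v', hu', hv', k⟩ := k
  refine ⟨p'.trans p, q'.trans q, fun i => u' i * u (p' i), fun j => v' j * v (q' j),
    fun _ => (hu' _).mul (hu _), fun _ => (hv' _).mul (hv _), fun i j => ?_⟩
  rw [k, h]
  simp only [Equiv.trans_apply]
  ring

def HD [Fintype ι] (A : ι → ι → ℤ) : Prop :=
  (∀ i j, Sg (A i j)) ∧ ∀ i k, i ≠ k → ∑ j, A i j * A k j = 0

theorem HD.rows [Fintype ι] {A : ι → ι → ℤ} (hA : HD A) {i k : ι} {s : ℤ} (hs : Sg s)
    (h : ∀ j, A i j = s * A k j) : i = k := by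
  by_contra hn
  have h1 := hA.2 i k hn
  have h2 : ∑ j, A i j * A k j = ∑ _j : ι, s :=
    Finset.sum_congr rfl fun j _ => by rw [h, mul_assoc, (hA.1 k j).sq, mul_one]
  rw [h1, Finset.sum_const, Finset.card_univ, nsmul_eq_mul] at h2
  have : 0 < Fintype.card ι := Fintype.card_pos_iff.2 ⟨i⟩
  rcases hs with rfl | rfl <;> omega

def sg (b : Bool) : ℤ := if b then -1 else 1

theorem sg_Sg (b : Bool) : Sg (sg b) := by cases b <;> simp [sg, Sg]

def M (π : Equiv.Perm ι) (A : ι → ι → ℤ) (x y : Bool × ι) : ℤ :=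
  if y.1 then sg x.1 * A (π x.2) y.2 else A x.2 y.2

theorem M_HD [Fintype ι] (π : Equiv.Perm ι) {A : ι → ι → ℤ} (hA : HD A) : HD (M π A) := by
  constructor
  · rintro x ⟨b, j⟩
    cases b
    · exact hA.1 _ _
    · exact (sg_Sg _).mul (hA.1 _ _)
  · rintro ⟨a, i⟩ ⟨b, k⟩ hne
    rw [Fintype.sum_prod_type, Fintype.sum_bool]
    simp only [M, if_true, Bool.false_eq_true, if_false]
    have e : ∑ j, sg a * A (π i) j * (sg b * A (π k) j) =
        sg a * sg b * ∑ j, A (π i) j * A (π k) j := by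
      rw [Finset.mul_sum]; exact Finset.sum_congr rfl fun j _ => by ring
    rw [e]
    by_cases hik : i = k
    · subst hik
      have e1 : ∀ i, ∑ j, A i j * A i j = ∑ _j : ι, (1 : ℤ) := fun i =>
        Finset.sum_congr rfl fun j _ => (hA.1 i j).sq
      rw [e1, e1]
      cases a <;> cases b <;> simp_all [sg]
    · rw [hA.2 i k hik, hA.2 _ _ (π.injective.ne hik)]; simp

theorem const [Fintype ι] [DecidableEq ι] (hc : 7 ≤ Fintype.card ι) (π : Equiv.Perm ι)
    (a b c : ι) (hab : a ≠ b) (hbc : b ≠ c) (hac : a ≠ c)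
    (hπ : ∀ w, π w ≠ w ↔ (w = a ∨ w = b ∨ w = c)) {A : ι → ι → ℤ} (hA : HD A)
    (d e : ι → ℤ) (hd : ∀ j, Sg (d j)) (he : ∀ j, Sg (e j))
    (H : ∀ i, ∃ k s t, Sg s ∧ Sg t ∧ (∀ j, A i j * d j = s * A k j) ∧
      ∀ j, A (π i) j * e j = t * A (π k) j) (j j' : ι) : d j = d j' := by
  by_contra hne
  choose τ s t hs ht h1 h2 using H
  have n1 : ∀ i, τ i ≠ i := by
    intro i hi
    have a1 := h1 i j
    have a2 := h1 i j'
    rw [hi] at a1 a2
    apply hne
    linear_combination A i j * a1 - A i j' * a2 - (d j - s i) * (hA.1 i j).sq +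
      (d j' - s i) * (hA.1 i j').sq
  have n2 : ∀ i, τ (τ i) = i := by
    intro i
    refine (hA.rows ((hs i).mul (hs (τ i))) fun j => ?_).symm
    linear_combination d j * h1 i j + s i * h1 (τ i) j - A i j * (hd j).sq
  obtain ⟨w, w1, w2⟩ : ∃ w, π w = w ∧ π (τ w) = τ w := by
    have : ({a, b, c, τ a, τ b, τ c} : Finset ι).card < (Finset.univ : Finset ι).card := by
      rw [Finset.card_univ]
      exact lt_of_le_of_lt Finset.card_le_six (by omega)
    obtain ⟨w, -, hw⟩ := Finset.exists_mem_notMem_of_card_lt_card this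
    simp only [Finset.mem_insert, Finset.mem_singleton, not_or] at hw
    refine ⟨w, ?_, ?_⟩
    · by_contra k
      rcases (hπ _).1 k with k | k | k <;> simp_all
    · by_contra k
      have := n2 w
      rcases (hπ _).1 k with k | k | k <;> rw [k] at this <;> simp_all
  have n3 : ∀ j, e j = s w * t w * d j := by
    intro j
    have a1 := h1 w j
    have a2 := h2 w j
    rw [w1, w2] at a2
    linear_combination A w j * a2 - s w * t w * A w j * a1 -
      (e j - s w * t w * d j) * (hA.1 w j).sq - t w * A w j * A (τ w) j * (hs w).sq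
  have n4 : ∀ i, π (τ i) = τ (π i) := by
    intro i
    refine hA.rows ((ht i).mul (((hs w).mul (ht w)).mul (hs (π i)))) fun j => ?_
    have a1 := h1 (π i) j
    have a2 := h2 i j
    rw [n3] at a2
    linear_combination t i * s w * t w * a1 - t i * a2 - A (π (τ i)) j * (ht i).sq
  have n5 : ∀ i, π i ≠ i → π (τ i) ≠ τ i := by
    intro i hi k
    apply hi
    rw [n4] at k
    rw [← n2 (π i), k, n2]
  have q1 := (hπ _).1 (n5 a ((hπ _).2 (by simp)))
  have q2 := (hπ _).1 (n5 b ((hπ _).2 (by simp)))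
  have q3 := (hπ _).1 (n5 c ((hπ _).2 (by simp)))
  have r1 := n1 a
  have r2 := n1 b
  have r3 := n1 c
  have s1 := n2 a
  have s2 := n2 b
  have s3 := n2 c
  grind

theorem key [Fintype ι] [DecidableEq ι] (hc : 7 ≤ Fintype.card ι) (π : Equiv.Perm ι)
    (a b c : ι) (hab : a ≠ b) (hbc : b ≠ c) (hac : a ≠ c)
    (hπ : ∀ w, π w ≠ w ↔ (w = a ∨ w = b ∨ w = c)) {A A' : ι → ι → ℤ} (hA : HD A)
    (h : E (M π A') (M π A)) : E A' A := by
  obtain ⟨p, q, u, v, hu, hv, h⟩ := h
  have flip : ∀ x y : Bool × ι, M π A' (!x.1, x.2) y = M π A' x y * sg y.1 := by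
    rintro ⟨a, i⟩ ⟨b, j⟩
    cases a <;> cases b <;> simp [M, sg]
  have st : ∀ x, ∃ z s, Sg s ∧ ∀ y, M π A x y * sg (q y).1 = s * M π A z y := by
    intro x
    refine ⟨p.symm (!(p x).1, (p x).2), u x * u (p.symm (!(p x).1, (p x).2)),
      (hu _).mul (hu _), fun y => ?_⟩
    rw [h, h, Equiv.apply_symm_apply, flip]
    linear_combination (-(u x * v y * M π A' (p x) (q y) * sg (q y).1)) *
      (hu (p.symm (!(p x).1, (p x).2))).sq
  have cs := const hc π a b c hab hbc hac hπ hA (fun j => sg (q (false, j)).1)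
    (fun j => sg (q (true, j)).1) (fun _ => sg_Sg _) (fun _ => sg_Sg _) (by
      intro i
      obtain ⟨z, s, hs, hz⟩ := st (false, i)
      refine ⟨z.2, s, s * sg z.1, hs, hs.mul (sg_Sg _), fun j => ?_, fun j => ?_⟩
      · simpa [M] using hz (false, j)
      · have := hz (true, j)
        simp only [M, if_true] at this
        rw [mul_assoc, ← this]
        simp [sg])
  have cs' : ∀ j, (q (false, j)).1 = (q (false, a)).1 := by
    intro j
    have := cs j a
    revert this
    cases (q (false, j)).1 <;> cases (q (false, a)).1 <;> simp [sg]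
  have fin : ∀ (ρ : ι → ι) (w : ι → ℤ), (∀ i, Sg (w i)) →
      (∀ i j, A i j = w i * v (false, j) * A' (ρ i) (q (false, j)).2) → E A' A := by
    intro ρ w hw hh
    have i1 : Function.Injective ρ := by
      intro i k hik
      refine hA.rows ((hw i).mul (hw k)) fun j => ?_
      rw [hh, hh k, hik]
      linear_combination (-(w i * v (false, j) * A' (ρ k) (q (false, j)).2)) * (hw k).sq
    have i2 : Function.Injective fun j => (q (false, j)).2 := by
      intro j k hjk
      have : q (false, j) = q (false, k) := Prod.ext (by rw [cs', cs' k]) hjk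
      simpa using this
    exact ⟨Equiv.ofBijective ρ (Finite.injective_iff_bijective.1 i1),
      Equiv.ofBijective _ (Finite.injective_iff_bijective.1 i2), w, fun j => v (false, j), hw,
      fun _ => hv _, hh⟩
  cases hq : (q (false, a)).1
  · refine fin (fun i => (p (false, i)).2) (fun i => u (false, i)) (fun _ => hu _) fun i j => ?_
    have := h (false, i) (false, j)
    simpa [M, cs' j, hq] using this
  · refine fin (fun i => π (p (false, i)).2) (fun i => u (false, i) * sg (p (false, i)).1)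
      (fun _ => (hu _).mul (sg_Sg _)) fun i j => ?_
    have := h (false, i) (false, j)
    simp only [M, cs' j, hq, if_true, Bool.false_eq_true, if_false] at this
    rw [this]; ring

theorem four [Fintype ι] {A : ι → ι → ℤ} (hA : HD A) (a b c : ι) (hab : a ≠ b) (hbc : b ≠ c)
    (hac : a ≠ c) : (4 : ℤ) ∣ Fintype.card ι := by
  have e : ∑ j, (A a j + A b j) * (A a j + A c j) = Fintype.card ι := by
    have : ∀ j, (A a j + A b j) * (A a j + A c j) =
        1 + A a j * A c j + A a j * A b j + A b j * A c j := fun j => by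
      linear_combination (hA.1 a j).sq
    simp only [this, Finset.sum_add_distrib, hA.2 a c hac, hA.2 a b hab, hA.2 b c hbc]
    simp
  rw [← e]
  refine Finset.dvd_sum fun j _ => ?_
  rcases hA.1 a j with h1 | h1 <;> rcases hA.1 b j with h2 | h2 <;>
    rcases hA.1 c j with h3 | h3 <;> simp [h1, h2, h3]

theorem small [Fintype ι] (o : ι) (H0 : ι → ι → ℤ)
    (hH : ∀ r : ι → ℤ, (∀ j, Sg (r j)) → r o = 1 → ((∀ j, r j = 1) ∨ ∑ j, r j = 0) →
      ∃ k, ∀ j, r j = H0 k j) {A : ι → ι → ℤ} (hA : HD A) : E H0 A := by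
  have : ∀ i, ∃ k, ∀ j, A i o * A o o * A o j * A i j = H0 k j := by
    intro i
    refine hH _ (fun j => (((hA.1 _ _).mul (hA.1 _ _)).mul (hA.1 _ _)).mul (hA.1 _ _)) ?_ ?_
    · linear_combination A o o * A o o * (hA.1 i o).sq + (hA.1 o o).sq
    · by_cases hi : o = i
      · subst hi
        left
        intro j
        linear_combination A o o * A o o * (hA.1 o j).sq + (hA.1 o o).sq
      · right
        simp only [mul_assoc, ← Finset.mul_sum, hA.2 o i hi, mul_zero]
  choose ρ hρ using this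
  have e : ∀ i j, A i j = A i o * A o o * A o j * H0 (ρ i) j := by
    intro i j
    rw [← hρ]
    linear_combination (-(A i j * A o o * A o o * A o j * A o j)) * (hA.1 i o).sq -
      A i j * A o j * A o j * (hA.1 o o).sq - A i j * (hA.1 o j).sq
  have i1 : Function.Injective ρ := by
    intro i k hik
    refine hA.rows ((hA.1 i o).mul (hA.1 k o)) fun j => ?_
    rw [e i j, e k j, hik]
    linear_combination (-(A i o * A o o * A o j * H0 (ρ k) j)) * (hA.1 k o).sq
  exact ⟨Equiv.ofBijective ρ (Finite.injective_iff_bijective.1 i1), 1, fun i => A i o * A o o,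
    fun j => A o j, fun _ => (hA.1 _ _).mul (hA.1 _ _), fun _ => hA.1 _ _, e⟩

theorem main (n : ℕ) (hn : 1 ≤ n) : ∃ π : Equiv.Perm (Fin n), ∀ A A' : Fin n → Fin n → ℤ,
    HD A → HD A' → E (M π A') (M π A) → E A' A := by
  by_cases h7 : 7 ≤ n
  · let a : Fin n := ⟨0, by omega⟩
    let b : Fin n := ⟨1, by omega⟩
    let c : Fin n := ⟨2, by omega⟩
    have hab : a ≠ b := by simp [a, b]
    have hbc : b ≠ c := by simp [c, b]
    have hac : a ≠ c := by simp [a, c]
    refine ⟨Equiv.swap a b * Equiv.swap b c, fun A A' hA _ h =>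
      key (by simpa using h7) _ a b c hab hbc hac (fun w => ?_) hA h⟩
    clear_value a b c
    simp only [Equiv.Perm.mul_apply, Equiv.swap_apply_def]
    grind
  refine ⟨1, fun A A' hA hA' _ => ?_⟩
  have h4 : 3 ≤ n → (4 : ℤ) ∣ n := fun h3 => by
    simpa using four hA ⟨0, by omega⟩ ⟨1, by omega⟩ ⟨2, by omega⟩ (by simp) (by simp) (by simp)
  have : n = 1 ∨ n = 2 ∨ n = 4 := by omega
  rcases this with rfl | rfl | rfl
  · have := fun B hB => @small (Fin 1) _ 0 (fun _ _ => 1) (fun r _ h _ => ⟨0, fun j => by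
      rw [Subsingleton.elim j 0, h]⟩) B hB
    exact (this _ hA').symm.trans (this _ hA)
  · have := fun B hB => @small (Fin 2) _ 0 !![1, 1; 1, -1] (fun r hr h _ => by
      rcases hr 1 with h1 | h1 <;> simp [Fin.exists_fin_succ, Fin.forall_fin_succ, h, h1]) B hB
    exact (this _ hA').symm.trans (this _ hA)
  · have := fun B hB => @small (Fin 4) _ 0 !![1, 1, 1, 1; 1, 1, -1, -1; 1, -1, 1, -1; 1, -1, -1, 1]
      (fun r hr h k => by
        rcases hr 1 with h1 | h1 <;> rcases hr 2 with h2 | h2 <;> rcases hr 3 with h3 | h3 <;>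
        simp_all [Fin.exists_fin_succ, Fin.forall_fin_succ, Fin.sum_univ_succ]) B hB
    exact (this _ hA').symm.trans (this _ hA)

theorem had_iff (n : ℕ) (H : Matrix (Fin n) (Fin n) ℤ) :
    ((∀ i j, Sg (H i j)) ∧ H * Hᵀ = (n : ℤ) • (1 : Matrix _ _ ℤ)) ↔ HD H := by
  refine and_congr_right fun hs => ⟨fun h i k hik => ?_, fun h => ?_⟩
  · have := congrFun (congrFun h i) k
    simpa [Matrix.mul_apply, hik] using this
  · ext i k
    by_cases hik : i = k
    · subst hik
      simp [Matrix.mul_apply, (hs i _).sq]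
    · simpa [Matrix.mul_apply, hik] using h i k hik

instance (n : ℕ) : Finite (Had n) := by
  refine Finite.of_injective (fun (H : Had n) (i j : Fin n) => decide (H.1 i j = 1)) ?_
  intro H K h
  refine Subtype.ext (Matrix.ext fun i j => ?_)
  have := congrFun (congrFun h i) j
  rcases H.2.1 i j with h1 | h1 <;> rcases K.2.1 i j with h2 | h2 <;> simp_all

theorem result (n : ℕ) (hn : 1 ≤ n) : h n ≤ h (2 * n) := by
  obtain ⟨π, hπ⟩ := main n hn
  let e : Fin (2 * n) ≃ Bool × Fin n := Fintype.equivOfCardEq (by simp)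
  let F : Had n → Had (2 * n) := fun H =>
    ⟨fun x y => M π H.1 (e x) (e y), (had_iff _ _).2 (by
      have := M_HD π ((had_iff _ _).1 H.2)
      refine ⟨fun _ _ => this.1 _ _, fun i k hik => ?_⟩
      rw [← this.2 _ _ (e.injective.ne hik)]
      exact e.sum_comp fun y => M π H.1 (e i) y * M π H.1 (e k) y)⟩
  refine Nat.card_le_card_of_injective (fun c => Quot.mk _ (F c.out)) fun c c' hcc => ?_
  have eq : Equivalence fun H K : Had (2 * n) => E H.1 K.1 :=
    ⟨fun _ => E.refl _, E.symm, E.trans⟩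
  obtain ⟨p, q, u, v, hu, hv, hh⟩ := eq.eqvGen_iff.1 (Quot.eq.1 hcc)
  rw [← c.out_eq, ← c'.out_eq]
  refine Quot.sound (hπ _ _ ((had_iff _ _).1 c'.out.2) ((had_iff _ _).1 c.out.2)
    ⟨(e.symm.trans p).trans e, (e.symm.trans q).trans e, fun x => u (e.symm x),
      fun y => v (e.symm y), fun _ => hu _, fun _ => hv _, fun x y => ?_⟩)
  simpa [F] using hh (e.symm x) (e.symm y)

end Pool.Agent.Results.MP_ced6ff_co.Double
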